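import Pool.Agent.Helper63.TH.Goals

/-!
# MP_705522_gt, thresholds, packet MG: accuracy of `moG`
-/

namespace Pool.Agent.Helper15.TH

open Pool.Agent.Helper53.PT
open Pool.Agent.Helper63.TH
open Pool.Agent.Helper63.P705 (NumOK gamN)

/-- the quotient of the approximations is close to the quotient -/
lemma mg_quot {g1 g2 g3 G1 G2 G3 ε : ℝ} (hε : 0 ≤ ε) (hε1 : ε ≤ 1 / 16) (h1 : 0 < G1) (h2 : 0 < G2)
    (h3 : 0 < G3) (k1 : |g1 - G1| ≤ ε * G1) (k2 : |g2 - G2| ≤ ε * G2) (k3 : |g3 - G3| ≤ ε * G3) :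
    |g1 * g2 / (g3 * g3) - G1 * G2 / (G3 * G3)| ≤ 5 * ε * (G1 * G2 / (G3 * G3)) := by
  rw [abs_le] at k1 k2 k3
  have l1 : G1 * (1 - ε) ≤ g1 := by linarith [k1.1]
  have u1 : g1 ≤ G1 * (1 + ε) := by linarith [k1.2]
  have l2 : G2 * (1 - ε) ≤ g2 := by linarith [k2.1]
  have u2 : g2 ≤ G2 * (1 + ε) := by linarith [k2.2]
  have l3 : G3 * (1 - ε) ≤ g3 := by linarith [k3.1]
  have u3 : g3 ≤ G3 * (1 + ε) := by linarith [k3.2]
  have he : 0 < 1 - ε := by linarith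
  have p1 : 0 < G1 * (1 - ε) := mul_pos h1 he
  have p2 : 0 < G2 * (1 - ε) := mul_pos h2 he
  have p3 : 0 < G3 * (1 - ε) := mul_pos h3 he
  have q1 : 0 < g1 := lt_of_lt_of_le p1 l1
  have q2 : 0 < g2 := lt_of_lt_of_le p2 l2
  have q3 : 0 < g3 := lt_of_lt_of_le p3 l3
  have hM : 0 < G1 * G2 / (G3 * G3) := by positivity
  have hup : g1 * g2 / (g3 * g3) ≤ (1 + 5 * ε) * (G1 * G2 / (G3 * G3)) := by
    calc g1 * g2 / (g3 * g3) ≤ (G1 * (1 + ε)) * (G2 * (1 + ε)) / ((G3 * (1 - ε)) * (G3 * (1 - ε))) := by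
          apply div_le_div₀ (by positivity)
          · exact mul_le_mul u1 u2 q2.le (by positivity)
          · positivity
          · exact mul_le_mul l3 l3 p3.le q3.le
      _ = ((1 + ε) ^ 2 / (1 - ε) ^ 2) * (G1 * G2 / (G3 * G3)) := by field_simp
      _ ≤ (1 + 5 * ε) * (G1 * G2 / (G3 * G3)) := by
          apply mul_le_mul_of_nonneg_right _ hM.le
          rw [div_le_iff₀ (by positivity)]
          nlinarith [mul_nonneg hε hε, mul_nonneg (mul_nonneg hε hε) hε]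
  have hlo : (1 - 5 * ε) * (G1 * G2 / (G3 * G3)) ≤ g1 * g2 / (g3 * g3) := by
    calc (1 - 5 * ε) * (G1 * G2 / (G3 * G3)) ≤ ((1 - ε) ^ 2 / (1 + ε) ^ 2) * (G1 * G2 / (G3 * G3)) := by
          apply mul_le_mul_of_nonneg_right _ hM.le
          rw [le_div_iff₀ (by positivity)]
          nlinarith [mul_nonneg hε hε, mul_nonneg (mul_nonneg hε hε) hε]
      _ = (G1 * (1 - ε)) * (G2 * (1 - ε)) / ((G3 * (1 + ε)) * (G3 * (1 + ε))) := by field_simp
      _ ≤ g1 * g2 / (g3 * g3) := by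
          apply div_le_div₀ (by positivity)
          · exact mul_le_mul l1 l2 p2.le q1.le
          · positivity
          · exact mul_le_mul u3 u3 q3.le (by positivity)
  rw [abs_le]
  constructor <;> linarith

/-- rounding of the quotient -/
lemma mg_div0 {A B C m K : ℕ} (hC : 0 < C) (hK : 0 < K) (hm : m = (A * B * K) / (C * C)) :
    (m : ℝ) / K ≤ (A : ℝ) * B / (C * C) ∧ (A : ℝ) * B / (C * C) ≤ (m : ℝ) / K + 1 / K := by
  have hCC : 0 < C * C := Nat.mul_pos hC hC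
  have hCCR : (0 : ℝ) < (C : ℝ) * C := by exact_mod_cast hCC
  have hKR : (0 : ℝ) < K := by exact_mod_cast hK
  have b1 : (m : ℝ) * (C * C) ≤ A * B * K := by
    have h := Nat.div_mul_le_self (A * B * K) (C * C)
    rw [← hm] at h
    exact_mod_cast h
  have b2 : (A : ℝ) * B * K ≤ (m + 1) * (C * C) := by
    have h := Nat.div_add_mod (A * B * K) (C * C)
    have h1 := Nat.mod_lt (A * B * K) hCC
    rw [← hm] at h
    have h' : A * B * K ≤ (m + 1) * (C * C) := by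
      have e : (m + 1) * (C * C) = C * C * m + C * C := by ring
      rw [e]
      omega
    exact_mod_cast h'
  constructor
  · rw [div_le_div_iff₀ hKR hCCR]
    exact b1
  · rw [div_le_iff₀ hCCR]
    have h2 : ((m : ℝ) / K + 1 / K) * (C * C) = ((m + 1) * (C * C)) / K := by
      field_simp
    rw [h2, le_div_iff₀ hKR]
    exact b2

/-- the definition of `moG` -/
lemma mg_def {A B C m : ℕ} (hm : m = Nat.div (Nat.shiftLeft (Nat.mul A B) 40) (Nat.mul C C)) :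
    ∃ K : ℕ, K = 1099511627776 ∧ m = (A * B * K) / (C * C) := by
  obtain ⟨K, hK⟩ : ∃ K : ℕ, K = 2 ^ 40 := ⟨_, rfl⟩
  refine ⟨K, by rw [hK]; norm_num, ?_⟩
  have e : Nat.shiftLeft (Nat.mul A B) 40 = A * B * K := by
    rw [hK]
    exact Nat.shiftLeft_eq (A * B) 40
  rw [hm, e]
  rfl

theorem gMG : GMG := by
  intro hN a ha hb
  have haR : (2000 : ℝ) ≤ a := by exact_mod_cast ha
  have hbR : (a : ℝ) ≤ 4095 := by exact_mod_cast hb
  obtain ⟨θ, hθ⟩ : ∃ θ : ℝ, θ = (a : ℝ) / 8192 := ⟨_, rfl⟩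
  rw [← hθ]
  have hθ0 : 0 < θ := by rw [hθ]; positivity
  have hθ1 : θ ≤ 1 / 2 := by rw [hθ, div_le_iff₀ (by norm_num)]; linarith
  have hM3 : mo θ 2 ≤ 3 := by
    have e2 : mo (1 / 2) 2 = 3 := by
      have h1 := aMO.2.2 1
      have h2 : mo (1 / 2) 1 = 1 := mo_one (by norm_num) (by norm_num)
      rw [h2] at h1
      rw [h1]; norm_num
    rw [← e2]
    exact mo_mono hθ0 hθ1 le_rfl 2
  have k1 := hN.gam (Nat.add 8192 (Nat.mul 3 a)) (by show 4096 ≤ 8192 + 3 * a; omega)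
    (by show 8192 + 3 * a < 65536; omega)
  have k2 := hN.gam (Nat.sub 8192 a) (by show 4096 ≤ 8192 - a; omega)
    (by show 8192 - a < 65536; omega)
  have k3 := hN.gam (Nat.add 8192 a) (by show 4096 ≤ 8192 + a; omega)
    (by show 8192 + a < 65536; omega)
  have c1 : ((Nat.add 8192 (Nat.mul 3 a) : ℕ) : ℝ) / 8192 = 1 + 3 * θ := by
    show ((8192 + 3 * a : ℕ) : ℝ) / 8192 = 1 + 3 * θ
    rw [hθ]; push_cast; ring
  have c2 : ((Nat.sub 8192 a : ℕ) : ℝ) / 8192 = 1 - θ := by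
    show ((8192 - a : ℕ) : ℝ) / 8192 = 1 - θ
    rw [hθ, Nat.cast_sub (by omega)]; push_cast; ring
  have c3 : ((Nat.add 8192 a : ℕ) : ℝ) / 8192 = 1 + θ := by
    show ((8192 + a : ℕ) : ℝ) / 8192 = 1 + θ
    rw [hθ]; push_cast; ring
  rw [c1] at k1
  rw [c2] at k2
  rw [c3] at k3
  have hdef : moG a = Nat.div (Nat.shiftLeft (Nat.mul (gamN (Nat.add 8192 (Nat.mul 3 a)))
      (gamN (Nat.sub 8192 a))) 40)
      (Nat.mul (gamN (Nat.add 8192 a)) (gamN (Nat.add 8192 a))) := by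
    unfold moG
    rfl
  generalize gamN (Nat.add 8192 (Nat.mul 3 a)) = A at hdef k1
  generalize gamN (Nat.sub 8192 a) = B at hdef k2
  generalize gamN (Nat.add 8192 a) = C at hdef k3
  generalize moG a = m at hdef
  have g1 : 0 < Real.Gamma (1 + 3 * θ) := Real.Gamma_pos_of_pos (by linarith)
  have g2 : 0 < Real.Gamma (1 - θ) := Real.Gamma_pos_of_pos (by linarith)
  have g3 : 0 < Real.Gamma (1 + θ) := Real.Gamma_pos_of_pos (by linarith)
  have hmo : mo θ 2 = Real.Gamma (1 + 3 * θ) * Real.Gamma (1 - θ) /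
      (Real.Gamma (1 + θ) * Real.Gamma (1 + θ)) := by
    have e : 1 + (2 * ((2 : ℕ) : ℝ) - 1) * θ = 1 + 3 * θ := by push_cast; ring
    unfold mo
    rw [e]
    field_simp
  have hq := mg_quot (ε := 2⁻¹ ^ 50) (by positivity) (by norm_num) g1 g2 g3 k1 k2 k3
  rw [← hmo] at hq
  have hCpos : 0 < C := by
    by_contra h
    have h0 : C = 0 := by omega
    rw [h0, abs_le] at k3
    have h4 := k3.1
    have h5 : (2⁻¹ : ℝ) ^ 50 ≤ 1 / 2 := by norm_num
    have h6 : ((0 : ℕ) : ℝ) / 2 ^ 60 - Real.Gamma (1 + θ) = -Real.Gamma (1 + θ) := by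
      norm_num
    rw [h6] at h4
    nlinarith
  have hX : ((A : ℝ) / 2 ^ 60) * ((B : ℝ) / 2 ^ 60) / (((C : ℝ) / 2 ^ 60) * ((C : ℝ) / 2 ^ 60))
      = (A : ℝ) * B / (C * C) := by
    have hCR : (C : ℝ) ≠ 0 := by positivity
    field_simp
  rw [hX, abs_le] at hq
  obtain ⟨K, hK, hmK⟩ := mg_def hdef
  have hKR : (K : ℝ) = 2 ^ 40 := by rw [hK]; norm_num
  obtain ⟨r1, r2⟩ := mg_div0 hCpos (by omega) hmK
  rw [hKR] at r1 r2
  have n0 : (1 : ℝ) / 2 ^ 40 = 2⁻¹ ^ 40 := by norm_num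
  rw [n0] at r2
  generalize (A : ℝ) * B / (C * C) = X at hq r1 r2
  generalize (m : ℝ) / 2 ^ 40 = Y at r1 r2 ⊢
  generalize mo θ 2 = M at hq hM3 ⊢
  have n1 : (2⁻¹ : ℝ) ^ 39 = 2 * 2⁻¹ ^ 40 := by norm_num
  have n2 : (5 : ℝ) * 2⁻¹ ^ 50 * 3 ≤ 2⁻¹ ^ 40 := by norm_num
  have n3 : (5 : ℝ) * 2⁻¹ ^ 50 * M ≤ 5 * 2⁻¹ ^ 50 * 3 :=
    mul_le_mul_of_nonneg_left hM3 (by positivity)
  rw [n1, abs_le]
  constructor <;> linarith [hq.1, hq.2]

end Pool.Agent.Helper15.TH
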